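import Pool.Agent.H184.T5.Col
import Pool.Agent.H184.T5.D.T000
import Pool.Agent.H184.T5.D.T001
import Pool.Agent.H184.T5.D.T002
import Pool.Agent.H184.T5.D.T003
import Pool.Agent.H184.T5.D.T004

set_option autoImplicit false

namespace Pool.Agent.H184.T5

open Pool.Agent.H805.T5

/-- the positions of the modules `D.T*` -/
def LT : List (ℕ × ℕ) :=
  T000.L ++ (T001.L ++ (T002.L ++ (T003.L ++ (T004.L))))

theorem allT : ∀ p ∈ LT, BP p.1 p.2 :=
  bapp T000.all (bapp T001.all (bapp T002.all (bapp T003.all (T004.all))))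

end Pool.Agent.H184.T5
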