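import Pool.Graph.R_seed8.Helper582.CubeSym

set_option autoImplicit false

/-!
# Facts about one group of cells

A group has at most 31 cells and at most 31 edges. A fact is a number: bits `0..30` are a set of cells (zone), the
bits from `31` on a set of edges; it says that Breaker, moving second inside the zone, hits all these edges inside
the zone. Tables have fields of 62 bits. Field `y` of the table `Y` is the cell `y` with the edges through it.
The other tables contain facts.
-/

namespace Pool.Agent.H184.T5.W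

open Pool.Agent.Helper582.Cube Set

def AND (a b : Bool) : Bool := @Bool.rec (fun _ => Bool) false b a

def ZM : ℕ := 0x7fffffff
def FM : ℕ := 0x3fffffffffffffff

/-- field of a table -/
def fld (D t : ℕ) : ℕ := Nat.land (Nat.shiftRight D (Nat.mul t 62)) FM

abbrev K3 := ℕ → ℕ → ℕ → Bool
abbrev K4 := ℕ → ℕ → ℕ → ℕ → Bool

/-- add `n` facts of the table `T` to the union `Q`; indices have 8 bits -/
def ploop (T : ℕ) (K : K3) (n : ℕ) : K3 :=
  @Nat.rec (fun _ => K3) K (fun _ ih s Q bad =>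
    (fun F => ih (Nat.shiftRight s 8) (Nat.lor Q F) (Nat.lor bad (Nat.land Q F))) (fld T (Nat.land s 255))) n
/-- the same with indices of 14 bits -/
def floop (T : ℕ) (K : K3) (n : ℕ) : K3 :=
  @Nat.rec (fun _ => K3) K (fun _ ih s Q bad =>
    (fun F => ih (Nat.shiftRight s 14) (Nat.lor Q F) (Nat.lor bad (Nat.land Q F))) (fld T (Nat.land s 16383))) n
/-- `n` branches; a branch is a reply, a number of pairs, a number of facts -/
def bloop (Y T D : ℕ) (K : K4) (n : ℕ) : K4 :=
  @Nat.rec (fun _ => K4) K (fun _ ih s O A bad =>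
    ploop T (floop D (fun s' Q bad' => (fun P => ih s' (Nat.lor O P) (Nat.land A P) bad')
        (Nat.lor Q (fld Y (Nat.land s 31))))
      (Nat.land (Nat.shiftRight s 9) 7)) (Nat.land (Nat.shiftRight s 5) 15) (Nat.shiftRight s 12) 0 bad) n
def push (ih : K3) (D k s N bad : ℕ) : Bool :=
  AND (Nat.beq (Nat.land bad ZM) 0) (ih s (Nat.lor D (Nat.shiftLeft N k)) (Nat.add k 62))
/-- `n` new facts, unions or nodes -/
def nloop (Y T : ℕ) (K : K3) (n : ℕ) : K3 :=
  @Nat.rec (fun _ => K3) K (fun _ ih s D k =>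
    @Bool.rec (fun _ => Bool)
      (bloop Y T D (fun s' O A bad => push ih D k s' (Nat.lor (Nat.land O ZM) A) (Nat.lor bad A)) (Nat.land s 31)
        (Nat.shiftRight s 5) 0 FM 0)
      (ploop T (floop D (push ih D k) (Nat.land (Nat.shiftRight s 9) 7)) (Nat.land (Nat.shiftRight s 5) 15)
        (Nat.shiftRight s 12) 0 0)
      (Nat.beq (Nat.land s 31) 0)) n
def outer (Y T : ℕ) (K : ℕ → ℕ → Bool) (l : List ℕ) : ℕ → ℕ → Bool :=
  @List.rec ℕ (fun _ => ℕ → ℕ → Bool) K
    (fun L _ ih D k => nloop Y T (fun _ => ih) (Nat.land L 255) (Nat.shiftRight L 8) D k) l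

/-- the table of pairs -/
def pairs (Y n : ℕ) : ℕ → ℕ → ℕ → ℕ → (ℕ → Bool) → Bool :=
  @Nat.rec (fun _ => ℕ → ℕ → ℕ → ℕ → (ℕ → Bool) → Bool)
    (fun _ T _ bad K => AND (Nat.beq (Nat.land bad ZM) 0) (K T))
    (fun _ ih s T k bad K => (fun a c => ih (Nat.shiftRight s 10)
        (Nat.lor T (Nat.shiftLeft (Nat.lor (Nat.land (Nat.lor a c) ZM) (Nat.land a c)) k))
        (Nat.add k 62) (Nat.lor bad (Nat.land a c)) K)
      (fld Y (Nat.land s 31)) (fld Y (Nat.land (Nat.shiftRight s 5) 31))) n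

def last (full D k : ℕ) : Bool := Nat.beq (Nat.shiftRight (Nat.shiftRight D (Nat.sub k 62)) 31) full

def DIAG : ℕ := @Nat.rec (fun _ => ℕ) 0 (fun i r => Nat.lor r (Nat.shiftLeft 1 (Nat.mul 63 i))) 31

/-- `Y`: the cells; `np`, `ps`: number and stream of pairs; `l`: the facts; `m`: number of edges -/
def chk (Y np ps : ℕ) (l : List ℕ) (m : ℕ) : Bool :=
  AND (Nat.beq (Nat.shiftRight Y 1922) 0) (AND (Nat.beq (Nat.land Y DIAG) DIAG)
    (pairs Y np ps 0 0 0 (fun T => outer Y T (last (Nat.sub (Nat.shiftLeft 1 m) 1)) l 0 0)))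

end Pool.Agent.H184.T5.W
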