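import Pool.Agent.H184.T5.Pos

set_option autoImplicit false

namespace Pool.Agent.H184.T5

open Pool.Agent.H805.T5

/-- Two lists of solved positions can be appended. -/
theorem bapp {l m : List (ℕ × ℕ)} (hl : ∀ p ∈ l, BP p.1 p.2) (hm : ∀ p ∈ m, BP p.1 p.2) :
    ∀ p ∈ l ++ m, BP p.1 p.2 := by
  intro p hp
  rcases List.mem_append.1 hp with h | h
  · exact hl p h
  · exact hm p h

end Pool.Agent.H184.T5
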