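import Pool.Agent.H184.T5.Col
import Pool.Agent.H184.T5.D.F24_43_0
import Pool.Agent.H184.T5.D.F24_43_1

set_option autoImplicit false

namespace Pool.Agent.H184.T5.F24_43

open Pool.Agent.H184.T5 Pool.Agent.H805.T5

/-- the positions of the family `(x2, y2) = (24, 43)` -/
def L : List (ℕ × ℕ) :=
  F24_43_0.L ++ (F24_43_1.L)

theorem all : ∀ p ∈ L, BP p.1 p.2 :=
  bapp F24_43_0.all (F24_43_1.all)

end Pool.Agent.H184.T5.F24_43
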