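import Pool.Agent.H184.T5.Col
import Pool.Agent.H184.T5.D.F33_91_0
import Pool.Agent.H184.T5.D.F33_91_1

set_option autoImplicit false

namespace Pool.Agent.H184.T5.F33_91

open Pool.Agent.H184.T5 Pool.Agent.H805.T5

/-- the positions of the family `(x2, y2) = (33, 91)` -/
def L : List (ℕ × ℕ) :=
  F33_91_0.L ++ (F33_91_1.L)

theorem all : ∀ p ∈ L, BP p.1 p.2 :=
  bapp F33_91_0.all (F33_91_1.all)

end Pool.Agent.H184.T5.F33_91
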