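import Pool.Agent.H184.T5.Col
import Pool.Agent.H184.T5.D.F7_33_0
import Pool.Agent.H184.T5.D.F7_33_1
import Pool.Agent.H184.T5.D.F7_33_2
import Pool.Agent.H184.T5.D.F7_33_3

set_option autoImplicit false

namespace Pool.Agent.H184.T5.F7_33

open Pool.Agent.H184.T5 Pool.Agent.H805.T5

/-- the positions of the family `(x2, y2) = (7, 33)` -/
def L : List (ℕ × ℕ) :=
  F7_33_0.L ++ (F7_33_1.L ++ (F7_33_2.L ++ (F7_33_3.L)))

theorem all : ∀ p ∈ L, BP p.1 p.2 :=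
  bapp F7_33_0.all (bapp F7_33_1.all (bapp F7_33_2.all (F7_33_3.all)))

end Pool.Agent.H184.T5.F7_33
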