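import Pool.Agent.H184.T5.Sound
import Pool.Agent.H805.T5.Base

set_option autoImplicit false

/-!
# From groups to positions
-/

namespace Pool.Agent.H184.T5

open Pool.Agent.Helper582.Cube Pool.Agent.H805.T5 Set

theorem t1 (i : ℕ) (h : (1 : ℕ).testBit i = true) : i = 0 := by
  by_contra hc
  rw [Nat.testBit_lt_two_pow (Nat.one_lt_two_pow hc)] at h
  simp at h

/-- family of a list of edges -/
def LF (es : List (List ℕ)) : Set (Set ℕ) := {s | ∃ e ∈ es, s = {i | i ∈ e}}

def COL : ℕ := @Nat.rec (fun _ => ℕ) 0 (fun i r => Nat.lor r (Nat.shiftLeft 1 (Nat.mul 56 i))) 28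

def spread (e : List ℕ) : ℕ :=
  @List.rec ℕ (fun _ => ℕ) 0 (fun i _ r => Nat.lor (Nat.shiftLeft 1 (Nat.mul 56 i)) r) e

/-- the columns of `Y` are inside the edges of the list -/
def lnk (Y : ℕ) (es : List (List ℕ)) : ℕ → Bool :=
  @List.rec (List ℕ) (fun _ => ℕ → Bool) (fun _ => true)
    (fun e _ ih j => AND (Nat.beq (Nat.lor (Nat.land (Nat.shiftRight Y j) COL) (spread e)) (spread e))
      (ih (Nat.succ j))) es

def len (es : List (List ℕ)) : ℕ := @List.rec (List ℕ) (fun _ => ℕ) 0 (fun _ _ n => Nat.succ n) es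

def chkG (Y np ps : ℕ) (l : List ℕ) (es : List (List ℕ)) : Bool :=
  AND (lnk Y es 28) (chk Y np ps l (len es))

theorem tspread (e : List ℕ) (i : ℕ) (h : (spread e).testBit (56 * i) = true) : i ∈ e := by
  induction e with
  | nil =>
    have : spread [] = 0 := rfl
    rw [this, t0] at h
    exact absurd h (by simp)
  | cons a e ih =>
    have : spread (a :: e) = Nat.lor (Nat.shiftLeft 1 (Nat.mul 56 a)) (spread e) := rfl
    rw [this, tO] at h
    rcases Bool.or_eq_true_iff.1 h with h | h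
    · rw [tS] at h
      obtain ⟨h1, h2⟩ := Bool.and_eq_true_iff.1 h
      have h1' : Nat.mul 56 a ≤ 56 * i := of_decide_eq_true h1
      have h1'' : 56 * a ≤ 56 * i := h1'
      have h3 : 56 * i - 56 * a = 0 := t1 _ h2
      have : i = a := by omega
      rw [this]
      exact List.mem_cons_self
    · exact List.mem_cons_of_mem _ (ih h)

theorem tCOL_aux (n : ℕ) : ∀ i, i < n →
    (@Nat.rec (fun _ => ℕ) 0 (fun i r => Nat.lor r (Nat.shiftLeft 1 (Nat.mul 56 i))) n : ℕ).testBit (56 * i) = true := by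
  induction n with
  | zero => intro i hi; omega
  | succ n ih =>
    intro i hi
    show (Nat.lor _ (Nat.shiftLeft 1 (Nat.mul 56 n))).testBit (56 * i) = true
    rw [tO]
    rcases Nat.lt_succ_iff_lt_or_eq.1 hi with h | rfl
    · rw [ih i h]; rfl
    · rw [tS]
      have : Nat.mul 56 i = 56 * i := rfl
      simp [this]

theorem lnk_sound {Y : ℕ} (es : List (List ℕ)) : ∀ j, lnk Y es j = true → ∀ e ∈ es, ∃ k, k < es.length ∧
    ∀ i, i < 28 → Y.testBit (j + k + 56 * i) = true → i ∈ e := by
  induction es with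
  | nil => intro j _ e he; exact absurd he (by simp)
  | cons a es ih =>
    intro j h e he
    obtain ⟨h1, h2⟩ := AND_true h
    rcases List.mem_cons.1 he with rfl | he
    · refine ⟨0, by simp, fun i hi hb => ?_⟩
      apply tspread
      have h3 : Nat.lor (Nat.land (Nat.shiftRight Y j) COL) (spread e) = spread e := Nat.eq_of_beq_eq_true h1
      rw [← h3, tO, tL, tR, show COL.testBit (56 * i) = true from tCOL_aux 28 i hi,
        show j + 56 * i = j + 0 + 56 * i by ring, hb]
      rfl
    · obtain ⟨k, hk, h4⟩ := ih (Nat.succ j) h2 e he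
      refine ⟨k + 1, by simp; exact hk, fun i hi hb => h4 i hi ?_⟩
      rw [show Nat.succ j + k + 56 * i = j + (k + 1) + 56 * i by omega]
      exact hb

theorem len_eq (es : List (List ℕ)) : len es = es.length := by
  induction es with
  | nil => rfl
  | cons a es ih =>
    show Nat.succ (len es) = _
    rw [ih]; rfl

/-- what a certificate of a group shows -/
theorem of_chkG {Y np ps : ℕ} {l : List ℕ} {es : List (List ℕ)} (h : chkG Y np ps l es = true) : BW (LF es) := by
  obtain ⟨h1, h2⟩ := AND_true h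
  have h3 := of_chk h2
  obtain ⟨h4, _⟩ := AND_true h2
  have hY1 : ∀ i, 1568 ≤ i → Y.testBit i = false := by
    intro i hi
    have e : Nat.shiftRight Y 1568 = 0 := Nat.eq_of_beq_eq_true h4
    have := tR Y 1568 (i - 1568)
    rw [e, t0, show 1568 + (i - 1568) = i by omega] at this
    exact this.symm
  refine h3.mono ?_
  rintro s ⟨e, he, rfl⟩
  obtain ⟨k, hk, h5⟩ := lnk_sound es 28 h1 e he
  refine ⟨Ed Y k, ⟨k, by rw [len_eq]; exact hk, rfl⟩, ?_⟩
  intro i hi
  have hi' : (fld Y i).testBit (28 + k) = true := hi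
  rw [tfld] at hi'
  obtain ⟨ha, _⟩ := Bool.and_eq_true_iff.1 hi'
  have hi28 : i < 28 := by
    by_contra hc
    rw [hY1 _ (by omega)] at ha
    exact absurd ha (by simp)
  refine h5 i hi28 ?_
  rw [show 28 + k + 56 * i = i * 56 + (28 + k) by ring]
  exact ha

/-! ## Instances -/

/-- code of the cell with local number `i` -/
def cd (cs i : ℕ) : ℕ := Nat.land (Nat.shiftRight cs (Nat.mul 7 i)) 127

/-- mask of an edge -/
def mm (cs : ℕ) (e : List ℕ) : ℕ :=
  @List.rec ℕ (fun _ => ℕ) 0 (fun i _ r => Nat.lor (Nat.shiftLeft 1 (cd cs i)) r) e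
def mms (cs : ℕ) (es : List (List ℕ)) (L : List ℕ) : List ℕ :=
  @List.rec (List ℕ) (fun _ => List ℕ) L (fun e _ r => mm cs e :: r) es

def allLt (n : ℕ) (e : List ℕ) : Bool := @List.rec ℕ (fun _ => Bool) true (fun i _ r => AND (Nat.ble (Nat.succ i) n) r) e
def allLts (n : ℕ) (es : List (List ℕ)) : Bool :=
  @List.rec (List ℕ) (fun _ => Bool) true (fun e _ r => AND (allLt n e) r) es

/-- the codes of the first `n` cells are new and different -/
def dis (cs : ℕ) (K : ℕ → Bool) (n : ℕ) : ℕ → Bool :=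
  @Nat.rec (fun _ => ℕ → Bool) K (fun i ih used =>
    AND (Nat.beq (Nat.land used (Nat.shiftLeft 1 (cd cs i))) 0) (ih (Nat.lor used (Nat.shiftLeft 1 (cd cs i))))) n

structure Inst where
  es : List (List ℕ)
  n : ℕ
  cs : ℕ

def insts (K : List ℕ → Bool) (l : List Inst) : ℕ → List ℕ → Bool :=
  @List.rec Inst (fun _ => ℕ → List ℕ → Bool) (fun _ L => K L)
    (fun I _ ih used L => AND (allLts I.n I.es) (dis I.cs (fun used' => ih used' (mms I.cs I.es L)) I.n used)) l

def anyS (L : List ℕ) (m : ℕ) : Bool :=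
  @List.rec ℕ (fun _ => Bool) false (fun k _ r => @Bool.rec (fun _ => Bool) r true (Nat.beq (Nat.lor k m) m)) L

def cov (L : List ℕ) (mk br : ℕ) : Bool :=
  @List.rec ℕ (fun _ => Bool) true (fun l _ r => AND (@Bool.rec (fun _ => Bool) true
    (anyS L (Nat.xor l (Nat.land l mk))) (Nat.beq (Nat.land l br) 0)) r) lines5

def posOK (l : List Inst) (mk br : ℕ) : Bool := insts (fun L => cov L mk br) l 0 []

/-- family of a list of masks -/
def MF (L : List ℕ) : Set (Set ℕ) := {s | ∃ m ∈ L, s = st m}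

theorem allLt_sound {n : ℕ} {e : List ℕ} (h : allLt n e = true) : ∀ i ∈ e, i < n := by
  induction e with
  | nil => intro i hi; exact absurd hi (by simp)
  | cons a e ih =>
    obtain ⟨h1, h2⟩ := AND_true h
    intro i hi
    rcases List.mem_cons.1 hi with rfl | hi
    · exact Nat.le_of_ble_eq_true h1
    · exact ih h2 i hi

theorem allLts_sound {n : ℕ} {es : List (List ℕ)} (h : allLts n es = true) : ∀ e ∈ es, ∀ i ∈ e, i < n := by
  induction es with
  | nil => intro i hi; exact absurd hi (by simp)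
  | cons a e ih =>
    obtain ⟨h1, h2⟩ := AND_true h
    intro i hi
    rcases List.mem_cons.1 hi with rfl | hi
    · exact allLt_sound h1
    · exact ih h2 i hi

theorem tone (c i : ℕ) : (Nat.shiftLeft 1 c).testBit i = true ↔ i = c := by
  rw [tS]
  constructor
  · intro h
    obtain ⟨h1, h2⟩ := Bool.and_eq_true_iff.1 h
    have h1' : c ≤ i := of_decide_eq_true h1
    have := t1 _ h2
    omega
  · rintro rfl
    simp

theorem mem_mm {cs : ℕ} {e : List ℕ} {i : ℕ} : i ∈ st (mm cs e) ↔ ∃ a ∈ e, i = cd cs a := by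
  induction e with
  | nil =>
    have : mm cs [] = 0 := rfl
    rw [this]
    simp [st]
  | cons a e ih =>
    have h : mm cs (a :: e) = Nat.lor (Nat.shiftLeft 1 (cd cs a)) (mm cs e) := rfl
    have h2 : i ∈ st (mm cs (a :: e)) ↔ (i = cd cs a ∨ i ∈ st (mm cs e)) := by
      show (mm cs (a :: e)).testBit i = true ↔ _
      rw [h, tO, Bool.or_eq_true_iff, tone]
      rfl
    rw [h2, ih]
    simp

theorem mem_mms {cs : ℕ} {es : List (List ℕ)} {L : List ℕ} {m : ℕ} :
    m ∈ mms cs es L ↔ (∃ e ∈ es, m = mm cs e) ∨ m ∈ L := by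
  induction es with
  | nil =>
    have : mms cs [] L = L := rfl
    rw [this]
    simp
  | cons a es ih =>
    have : mms cs (a :: es) L = mm cs a :: mms cs es L := rfl
    rw [this, List.mem_cons, ih]
    simp [or_assoc]

theorem dis_sound {cs : ℕ} {G : Prop} {K : ℕ → Bool} (n : ℕ) : ∀ used, dis cs K n used = true →
    (∀ used', K used' = true → (∀ i ∈ st used, i ∈ st used') → (∀ a < n, cd cs a ∈ st used') →
      (∀ a < n, cd cs a ∉ st used) → (∀ a < n, ∀ b < n, cd cs a = cd cs b → a = b) → G) → G := by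
  induction n with
  | zero =>
    intro used h hG
    exact hG used h (fun i hi => hi) (fun a ha => absurd ha (by omega)) (fun a ha => absurd ha (by omega))
      (fun a ha => absurd ha (by omega))
  | succ n ih =>
    intro used h hG
    obtain ⟨h1, h2⟩ := AND_true h
    have h3 : Nat.land used (Nat.shiftLeft 1 (cd cs n)) = 0 := Nat.eq_of_beq_eq_true h1
    have h4 : cd cs n ∉ st used := by
      intro hc
      have h5 := tL used (Nat.shiftLeft 1 (cd cs n)) (cd cs n)
      rw [h3, t0, (tone _ _).2 rfl, show used.testBit (cd cs n) = true from hc] at h5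
      exact absurd h5 (by simp)
    have h6 : ∀ i, i ∈ st (Nat.lor used (Nat.shiftLeft 1 (cd cs n))) ↔ i ∈ st used ∨ i = cd cs n := by
      intro i
      show (Nat.lor used _).testBit i = true ↔ _
      rw [tO, Bool.or_eq_true_iff, tone]
      rfl
    refine ih _ h2 ?_
    intro used' hK g1 g2 g3 g4
    refine hG used' hK (fun i hi => g1 i ((h6 i).2 (Or.inl hi))) ?_ ?_ ?_
    · intro a ha
      rcases Nat.lt_succ_iff_lt_or_eq.1 ha with h | rfl
      · exact g2 a h
      · exact g1 _ ((h6 _).2 (Or.inr rfl))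
    · intro a ha
      rcases Nat.lt_succ_iff_lt_or_eq.1 ha with h | rfl
      · exact fun hc => g3 a h ((h6 _).2 (Or.inl hc))
      · exact h4
    · intro a ha b hb hab
      rcases Nat.lt_succ_iff_lt_or_eq.1 ha with h | rfl
      · rcases Nat.lt_succ_iff_lt_or_eq.1 hb with h' | rfl
        · exact g4 a h b h' hab
        · exact absurd ((h6 _).2 (Or.inr hab)) (g3 a h)
      · rcases Nat.lt_succ_iff_lt_or_eq.1 hb with h' | rfl
        · exact absurd ((h6 _).2 (Or.inr hab.symm)) (g3 b h')
        · rfl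

theorem BW_map {es : List (List ℕ)} {n cs : ℕ} (h : BW (LF es)) (hlt : ∀ e ∈ es, ∀ i ∈ e, i < n)
    (hinj : ∀ a < n, ∀ b < n, cd cs a = cd cs b → a = b) : BW {s | ∃ e ∈ es, s = st (mm cs e)} := by
  classical
  let f : ℕ → ℕ := fun c => if hc : ∃ a < n, c = cd cs a then hc.choose else c + n
  have hf : ∀ a < n, f (cd cs a) = a := by
    intro a ha
    have hc : ∃ b < n, cd cs a = cd cs b := ⟨a, ha, rfl⟩
    have : f (cd cs a) = hc.choose := dif_pos hc
    rw [this]
    exact (hinj a ha _ hc.choose_spec.1 hc.choose_spec.2).symm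
  have hf2 : ∀ c, (¬ ∃ a < n, c = cd cs a) → f c = c + n := fun c hc => dif_neg hc
  have hfi : Function.Injective f := by
    intro c d hcd
    by_cases hc : ∃ a < n, c = cd cs a
    · obtain ⟨a, ha, rfl⟩ := hc
      rw [hf a ha] at hcd
      by_cases hd : ∃ b < n, d = cd cs b
      · obtain ⟨b, hb, rfl⟩ := hd
        rw [hf b hb] at hcd
        rw [hcd]
      · rw [hf2 d hd] at hcd
        omega
    · rw [hf2 c hc] at hcd
      by_cases hd : ∃ b < n, d = cd cs b
      · obtain ⟨b, hb, rfl⟩ := hd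
        rw [hf b hb] at hcd
        omega
      · rw [hf2 d hd] at hcd
        omega
  refine h.pull f hfi ?_
  rintro s ⟨e, he, rfl⟩
  refine ⟨_, ⟨e, he, rfl⟩, ?_⟩
  intro i hi
  exact ⟨cd cs i, mem_mm.2 ⟨i, hi, rfl⟩, hf i (hlt e he i hi)⟩

theorem insts_sound {K : List ℕ → Bool} {G : Prop} (hK : ∀ L, BW (MF L) → K L = true → G) (l : List Inst)
    (hl : ∀ I ∈ l, BW (LF I.es)) : ∀ used L, BW (MF L) → (∀ m ∈ L, st m ⊆ st used) →
    insts K l used L = true → G := by
  induction l with
  | nil => exact fun used L hL _ h => hK L hL h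
  | cons I l ih =>
    intro used L hL hs h
    obtain ⟨h1, h2⟩ := AND_true h
    refine dis_sound I.n used h2 ?_
    intro used' h3 g1 g2 g3 g4
    have hlt := allLts_sound h1
    refine ih (fun J hJ => hl J (List.mem_cons_of_mem _ hJ)) used' _ ?_ ?_ h3
    · refine BW.mono (BW.union (BW_map (hl I List.mem_cons_self) hlt g4) hL ?_) ?_
      · rintro a ⟨s, ⟨e, he, rfl⟩, ha⟩ ⟨s', ⟨m, hm, rfl⟩, ha'⟩
        obtain ⟨i, hi, rfl⟩ := mem_mm.1 ha
        exact g3 i (hlt e he i hi) (hs m hm ha')
      · rintro s ⟨m, hm, rfl⟩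
        rcases mem_mms.1 hm with ⟨e, he, rfl⟩ | hm
        · exact ⟨_, Or.inl ⟨e, he, rfl⟩, subset_rfl⟩
        · exact ⟨_, Or.inr ⟨m, hm, rfl⟩, subset_rfl⟩
    · intro m hm
      rcases mem_mms.1 hm with ⟨e, he, rfl⟩ | hm
      · intro a ha
        obtain ⟨i, hi, rfl⟩ := mem_mm.1 ha
        exact g2 i (hlt e he i hi)
      · exact fun a ha => g1 a (hs m hm ha)

theorem anyS_sound {L : List ℕ} {m : ℕ} (h : anyS L m = true) : ∃ k ∈ L, st k ⊆ st m := by
  induction L with
  | nil =>
    have : anyS [] m = false := rfl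
    rw [this] at h
    exact absurd h (by simp)
  | cons k L ih =>
    have h1 : @Bool.rec (fun _ => Bool) (anyS L m) true (Nat.beq (Nat.lor k m) m) = true := h
    cases hb : Nat.beq (Nat.lor k m) m with
    | true =>
      refine ⟨k, List.mem_cons_self, ?_⟩
      intro i hi
      have h2 : Nat.lor k m = m := Nat.eq_of_beq_eq_true hb
      show m.testBit i = true
      rw [← h2, tO, show k.testBit i = true from hi]
      rfl
    | false =>
      rw [hb] at h1
      obtain ⟨k', hk', h2⟩ := ih h1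
      exact ⟨k', List.mem_cons_of_mem _ hk', h2⟩

theorem cov_sound {L : List ℕ} {mk br : ℕ} (h : cov L mk br = true) :
    ∀ s ∈ posF mk br, ∃ k ∈ MF L, k ⊆ s := by
  have key : ∀ ls : List ℕ, @List.rec ℕ (fun _ => Bool) true (fun l _ r => AND (@Bool.rec (fun _ => Bool) true
      (anyS L (Nat.xor l (Nat.land l mk))) (Nat.beq (Nat.land l br) 0)) r) ls = true →
      ∀ l ∈ ls, Nat.land l br = 0 → anyS L (Nat.xor l (Nat.land l mk)) = true := by
    intro ls
    induction ls with
    | nil => intro _ l hl; exact absurd hl (by simp)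
    | cons a ls ih =>
      intro h l hl h0
      obtain ⟨h1, h2⟩ := AND_true h
      rcases List.mem_cons.1 hl with rfl | hl
      · rw [h0] at h1
        exact h1
      · exact ih h2 l hl h0
  rintro s ⟨l, hl, h0, rfl⟩
  obtain ⟨k, hk, h1⟩ := anyS_sound (key lines5 h l hl h0)
  refine ⟨st k, ⟨k, hk, rfl⟩, ?_⟩
  intro i hi
  have h2 : (Nat.xor l (Nat.land l mk)).testBit i = true := h1 hi
  have h3 : (Nat.xor l (Nat.land l mk)).testBit i = (l.testBit i ^^ (l.testBit i && mk.testBit i)) := by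
    have := Nat.testBit_xor l (Nat.land l mk) i
    rw [tL] at this
    exact this
  rw [h3] at h2
  show l.testBit i = true ∧ ¬ mk.testBit i = true
  cases ha : l.testBit i <;> cases hb : mk.testBit i <;> rw [ha, hb] at h2 <;> simp at h2 ⊢

/-- positions -/
theorem of_posOK {l : List Inst} {mk br : ℕ} (hl : ∀ I ∈ l, BW (LF I.es)) (h : posOK l mk br = true) : BP mk br := by
  refine insts_sound (G := BP mk br) ?_ l hl 0 [] ?_ (by simp) h
  · intro L hL hc
    exact hL.mono (cov_sound hc)
  · have : MF [] = ∅ := by ext s; simp [MF]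
    rw [this]
    exact BW.empty

theorem hnil : ∀ I ∈ ([] : List Inst), BW (LF I.es) := fun _ h => absurd h (by simp)

theorem hcons {I : Inst} {l : List Inst} (h : BW (LF I.es)) (hl : ∀ J ∈ l, BW (LF J.es)) :
    ∀ J ∈ I :: l, BW (LF J.es) := by
  intro J hJ
  rcases List.mem_cons.1 hJ with rfl | hJ
  · exact h
  · exact hl J hJ

theorem bnil : ∀ p ∈ ([] : List (ℕ × ℕ)), BP p.1 p.2 := fun _ h => absurd h (by simp)

theorem bcons {a b : ℕ} {l : List (ℕ × ℕ)} (h : BP a b) (hl : ∀ p ∈ l, BP p.1 p.2) :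
    ∀ p ∈ (a, b) :: l, BP p.1 p.2 := by
  intro p hp
  rcases List.mem_cons.1 hp with rfl | hp
  · exact h
  · exact hl p hp

end Pool.Agent.H184.T5
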