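import Pool.Agent.H184.T5.SoundW
import Pool.Agent.H184.T5.Pos

set_option autoImplicit false

/-!
# Groups with at most 31 cells and at most 31 edges
-/

namespace Pool.Agent.H184.T5.W

open Pool.Agent.Helper582.Cube Pool.Agent.H805.T5 Set

def COL : ℕ := @Nat.rec (fun _ => ℕ) 0 (fun i r => Nat.lor r (Nat.shiftLeft 1 (Nat.mul 62 i))) 31

def spread (e : List ℕ) : ℕ :=
  @List.rec ℕ (fun _ => ℕ) 0 (fun i _ r => Nat.lor (Nat.shiftLeft 1 (Nat.mul 62 i)) r) e

/-- the columns of `Y` are inside the edges of the list -/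
def lnk (Y : ℕ) (es : List (List ℕ)) : ℕ → Bool :=
  @List.rec (List ℕ) (fun _ => ℕ → Bool) (fun _ => true)
    (fun e _ ih j => AND (Nat.beq (Nat.lor (Nat.land (Nat.shiftRight Y j) COL) (spread e)) (spread e))
      (ih (Nat.succ j))) es

def len (es : List (List ℕ)) : ℕ := @List.rec (List ℕ) (fun _ => ℕ) 0 (fun _ _ n => Nat.succ n) es

def chkG (Y np ps : ℕ) (l : List ℕ) (es : List (List ℕ)) : Bool :=
  AND (lnk Y es 31) (chk Y np ps l (len es))

theorem tspread (e : List ℕ) (i : ℕ) (h : (spread e).testBit (62 * i) = true) : i ∈ e := by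
  induction e with
  | nil =>
    have : spread [] = 0 := rfl
    rw [this, t0] at h
    exact absurd h (by simp)
  | cons a e ih =>
    have : spread (a :: e) = Nat.lor (Nat.shiftLeft 1 (Nat.mul 62 a)) (spread e) := rfl
    rw [this, tO] at h
    rcases Bool.or_eq_true_iff.1 h with h | h
    · rw [tS] at h
      obtain ⟨h1, h2⟩ := Bool.and_eq_true_iff.1 h
      have h1' : Nat.mul 62 a ≤ 62 * i := of_decide_eq_true h1
      have h1'' : 62 * a ≤ 62 * i := h1'
      have h3 : 62 * i - 62 * a = 0 := t1 _ h2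
      have : i = a := by omega
      rw [this]
      exact List.mem_cons_self
    · exact List.mem_cons_of_mem _ (ih h)

theorem tCOL_aux (n : ℕ) : ∀ i, i < n →
    (@Nat.rec (fun _ => ℕ) 0 (fun i r => Nat.lor r (Nat.shiftLeft 1 (Nat.mul 62 i))) n : ℕ).testBit (62 * i) = true := by
  induction n with
  | zero => intro i hi; omega
  | succ n ih =>
    intro i hi
    show (Nat.lor _ (Nat.shiftLeft 1 (Nat.mul 62 n))).testBit (62 * i) = true
    rw [tO]
    rcases Nat.lt_succ_iff_lt_or_eq.1 hi with h | rfl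
    · rw [ih i h]; rfl
    · rw [tS]
      have : Nat.mul 62 i = 62 * i := rfl
      simp [this]

theorem lnk_sound {Y : ℕ} (es : List (List ℕ)) : ∀ j, lnk Y es j = true → ∀ e ∈ es, ∃ k, k < es.length ∧
    ∀ i, i < 31 → Y.testBit (j + k + 62 * i) = true → i ∈ e := by
  induction es with
  | nil => intro j _ e he; exact absurd he (by simp)
  | cons a es ih =>
    intro j h e he
    obtain ⟨h1, h2⟩ := AND_true h
    rcases List.mem_cons.1 he with rfl | he
    · refine ⟨0, by simp, fun i hi hb => ?_⟩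
      apply tspread
      have h3 : Nat.lor (Nat.land (Nat.shiftRight Y j) COL) (spread e) = spread e := Nat.eq_of_beq_eq_true h1
      rw [← h3, tO, tL, tR, show COL.testBit (62 * i) = true from tCOL_aux 31 i hi,
        show j + 62 * i = j + 0 + 62 * i by ring, hb]
      rfl
    · obtain ⟨k, hk, h4⟩ := ih (Nat.succ j) h2 e he
      refine ⟨k + 1, by simp; exact hk, fun i hi hb => h4 i hi ?_⟩
      rw [show Nat.succ j + k + 62 * i = j + (k + 1) + 62 * i by omega]
      exact hb

theorem len_eq (es : List (List ℕ)) : len es = es.length := by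
  induction es with
  | nil => rfl
  | cons a es ih =>
    show Nat.succ (len es) = _
    rw [ih]; rfl

/-- what a certificate of a group shows -/
theorem of_chkG {Y np ps : ℕ} {l : List ℕ} {es : List (List ℕ)} (h : chkG Y np ps l es = true) : BW (LF es) := by
  obtain ⟨h1, h2⟩ := AND_true h
  have h3 := of_chk h2
  obtain ⟨h4, _⟩ := AND_true h2
  have hY1 : ∀ i, 1922 ≤ i → Y.testBit i = false := by
    intro i hi
    have e : Nat.shiftRight Y 1922 = 0 := Nat.eq_of_beq_eq_true h4
    have := tR Y 1922 (i - 1922)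
    rw [e, t0, show 1922 + (i - 1922) = i by omega] at this
    exact this.symm
  refine h3.mono ?_
  rintro s ⟨e, he, rfl⟩
  obtain ⟨k, hk, h5⟩ := lnk_sound es 31 h1 e he
  refine ⟨Ed Y k, ⟨k, by rw [len_eq]; exact hk, rfl⟩, ?_⟩
  intro i hi
  have hi' : (fld Y i).testBit (31 + k) = true := hi
  rw [tfld] at hi'
  obtain ⟨ha, _⟩ := Bool.and_eq_true_iff.1 hi'
  have hi28 : i < 31 := by
    by_contra hc
    rw [hY1 _ (by omega)] at ha
    exact absurd ha (by simp)
  refine h5 i hi28 ?_
  rw [show 31 + k + 62 * i = i * 62 + (31 + k) by ring]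
  exact ha


end Pool.Agent.H184.T5.W
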