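import Pool.Agent.H184.T5.GrpW

set_option autoImplicit false

/-!
# Certificates with several conclusions

The base group has a list of edges `es`; a root `R` is a number whose bits `0..30` are a set of cells and whose
bits from `31` on a set of edges. The certificate shows that Breaker, moving second, hits these edges inside these
cells.
-/

namespace Pool.Agent.H184.T5.W

open Pool.Agent.Helper582.Cube Pool.Agent.H805.T5 Set

def rootOK (D t R : ℕ) : Bool :=
  (fun F => AND (Nat.beq (Nat.lor (Nat.land F ZM) (Nat.land R ZM)) (Nat.land R ZM))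
    (Nat.beq (Nat.lor (Nat.shiftRight R 31) (Nat.shiftRight F 31)) (Nat.shiftRight F 31))) (fld D t)

def rootsOK (rs : List (ℕ × ℕ)) (D : ℕ) : Bool :=
  @List.rec (ℕ × ℕ) (fun _ => Bool) true (fun r _ ih => AND (rootOK D r.1 r.2) ih) rs

def tb (n i : ℕ) : Bool := Nat.beq (Nat.land (Nat.shiftRight n i) 1) 1

/-- the cells of `e` in the zone of `R` -/
def filt (R : ℕ) (e : List ℕ) : List ℕ :=
  @List.rec ℕ (fun _ => List ℕ) [] (fun i _ r => @Bool.rec (fun _ => List ℕ) r (i :: r) (tb R i)) e

/-- the edges of `R` inside the zone of `R`, where the number of the first edge of the list is `k - 31` -/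
def sub (R : ℕ) (es : List (List ℕ)) : ℕ → List (List ℕ) :=
  @List.rec (List ℕ) (fun _ => ℕ → List (List ℕ)) (fun _ => [])
    (fun e _ ih k => @Bool.rec (fun _ => List (List ℕ)) (ih (Nat.succ k)) (filt R e :: ih (Nat.succ k)) (tb R k)) es

def chkM (Y np ps : ℕ) (l : List ℕ) (es : List (List ℕ)) (rs : List (ℕ × ℕ)) : Bool :=
  AND (lnk Y es 31) (AND (Nat.beq (Nat.shiftRight Y 1922) 0) (AND (Nat.beq (Nat.land Y DIAG) DIAG)
    (pairs Y np ps 0 0 0 (fun T => outer Y T (fun D _ => rootsOK rs D) l 0 0))))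

theorem ttb (n i : ℕ) : tb n i = n.testBit i := by
  unfold tb
  have h : Nat.land (Nat.shiftRight n i) 1 = (n >>> i) % 2 := Nat.and_one_is_mod _
  rw [h, Nat.testBit_eq_decide_div_mod_eq, Nat.shiftRight_eq_div_pow]
  rcases Nat.mod_two_eq_zero_or_one (n / 2 ^ i) with h | h <;> rw [h] <;> rfl

theorem mem_filt {R : ℕ} {e : List ℕ} {i : ℕ} : i ∈ filt R e ↔ i ∈ e ∧ R.testBit i = true := by
  induction e with
  | nil => simp [filt]
  | cons a e ih =>
    have h : filt R (a :: e) = @Bool.rec (fun _ => List ℕ) (filt R e) (a :: filt R e) (tb R a) := rfl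
    rw [h, ttb]
    cases hb : R.testBit a with
    | false =>
      show i ∈ filt R e ↔ _
      rw [ih, List.mem_cons]
      constructor
      · rintro ⟨h1, h2⟩; exact ⟨Or.inr h1, h2⟩
      · rintro ⟨rfl | h1, h2⟩
        · rw [hb] at h2; exact absurd h2 (by simp)
        · exact ⟨h1, h2⟩
    | true =>
      show i ∈ a :: filt R e ↔ _
      rw [List.mem_cons, List.mem_cons, ih]
      constructor
      · rintro (rfl | ⟨h1, h2⟩)
        · exact ⟨Or.inl rfl, hb⟩
        · exact ⟨Or.inr h1, h2⟩
      · rintro ⟨rfl | h1, h2⟩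
        · exact Or.inl rfl
        · exact Or.inr ⟨h1, h2⟩

theorem mem_sub {R : ℕ} (es : List (List ℕ)) : ∀ (k : ℕ) (s : List ℕ), s ∈ sub R es k →
    ∃ j e, es[j]? = some e ∧ R.testBit (k + j) = true ∧ s = filt R e := by
  induction es with
  | nil => intro k s hs; exact absurd hs (by simp [sub])
  | cons a es ih =>
    intro k s hs
    have h : sub R (a :: es) k = @Bool.rec (fun _ => List (List ℕ)) (sub R es (Nat.succ k))
      (filt R a :: sub R es (Nat.succ k)) (tb R k) := rfl
    rw [h, ttb] at hs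
    cases hb : R.testBit k with
    | false =>
      rw [hb] at hs
      obtain ⟨j, e, h1, h2, h3⟩ := ih (Nat.succ k) s hs
      exact ⟨j + 1, e, by simpa using h1, by rw [show k + (j + 1) = Nat.succ k + j by omega]; exact h2, h3⟩
    | true =>
      rw [hb] at hs
      have hs' : s ∈ filt R a :: sub R es (Nat.succ k) := hs
      rcases List.mem_cons.1 hs' with rfl | hs'
      · exact ⟨0, a, by simp, by simpa using hb, rfl⟩
      · obtain ⟨j, e, h1, h2, h3⟩ := ih (Nat.succ k) s hs'
        exact ⟨j + 1, e, by simpa using h1, by rw [show k + (j + 1) = Nat.succ k + j by omega]; exact h2, h3⟩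

/-- the columns of `Y` are inside the edges -/
theorem lnk_get {Y : ℕ} (es : List (List ℕ)) : ∀ j, lnk Y es j = true → ∀ (k : ℕ) (e : List ℕ),
    es[k]? = some e → ∀ i, i < 31 → Y.testBit (j + k + 62 * i) = true → i ∈ e := by
  induction es with
  | nil => intro j _ k e he; exact absurd he (by simp)
  | cons a es ih =>
    intro j h k e he i hi hb
    obtain ⟨h1, h2⟩ := AND_true h
    cases k with
    | zero =>
      have : a = e := by simpa using he
      subst this
      apply tspread
      have h3 : Nat.lor (Nat.land (Nat.shiftRight Y j) COL) (spread a) = spread a := Nat.eq_of_beq_eq_true h1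
      rw [← h3, tO, tL, tR, show COL.testBit (62 * i) = true from tCOL_aux 31 i hi,
        show j + 62 * i = j + 0 + 62 * i by ring, hb]
      rfl
    | succ k =>
      have he' : es[k]? = some e := by simpa using he
      refine ih (Nat.succ j) h2 k e he' i hi ?_
      rw [show Nat.succ j + k + 62 * i = j + (k + 1) + 62 * i by omega]
      exact hb

theorem rootsOK_sound {D : ℕ} {rs : List (ℕ × ℕ)} (h : rootsOK rs D = true) :
    ∀ r ∈ rs, rootOK D r.1 r.2 = true := by
  induction rs with
  | nil => intro r hr; exact absurd hr (by simp)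
  | cons a rs ih =>
    obtain ⟨h1, h2⟩ := AND_true h
    intro r hr
    rcases List.mem_cons.1 hr with rfl | hr
    · exact h1
    · exact ih h2 r hr

theorem root_good {Y D t R : ℕ} (hY : HY Y) (hD : Good Y (fld D t)) (h : rootOK D t R = true) : Good Y R := by
  obtain ⟨h1, h2⟩ := AND_true h
  have e1 : Nat.lor (Nat.land (fld D t) ZM) (Nat.land R ZM) = Nat.land R ZM := Nat.eq_of_beq_eq_true h1
  have e2 : Nat.lor (Nat.shiftRight R 31) (Nat.shiftRight (fld D t) 31) = Nat.shiftRight (fld D t) 31 :=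
    Nat.eq_of_beq_eq_true h2
  have hz : ∀ i, i < 31 → (fld D t).testBit i = true → R.testBit i = true := by
    intro i hi hf
    have h3 := tO (Nat.land (fld D t) ZM) (Nat.land R ZM) i
    rw [e1, tL, tL, tZ, hf] at h3
    simp [hi] at h3
    exact h3
  have he : ∀ j, R.testBit (31 + j) = true → (fld D t).testBit (31 + j) = true := by
    intro j hj
    have h3 := tO (Nat.shiftRight R 31) (Nat.shiftRight (fld D t) 31) j
    rw [e2, tR, tR, hj] at h3
    simpa using h3
  refine BW.mono hD ?_
  rintro s ⟨j, hj, rfl⟩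
  refine ⟨_, ⟨j, he j hj, rfl⟩, ?_⟩
  rintro i ⟨hi1, hi2⟩
  exact ⟨hi1, hz i (hY i j hi1).1 hi2⟩

theorem of_chkM {Y np ps : ℕ} {l : List ℕ} {es : List (List ℕ)} {rs : List (ℕ × ℕ)}
    (h : chkM Y np ps l es rs = true) : ∀ r ∈ rs, BW (LF (sub r.2 es 31)) := by
  obtain ⟨h0, h⟩ := AND_true h
  obtain ⟨h1, h⟩ := AND_true h
  obtain ⟨h2, h⟩ := AND_true h
  have hY1 : ∀ i, 1922 ≤ i → Y.testBit i = false := by
    intro i hi
    have e : Nat.shiftRight Y 1922 = 0 := Nat.eq_of_beq_eq_true h1
    have := tR Y 1922 (i - 1922)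
    rw [e, t0, show 1922 + (i - 1922) = i by omega] at this
    exact this.symm
  have hY2 : ∀ i, i < 31 → Y.testBit (63 * i) = true := by
    intro i hi
    have e : Nat.land Y DIAG = DIAG := Nat.eq_of_beq_eq_true h2
    have hd : DIAG.testBit (63 * i) = true := tDIAG_aux 31 i hi
    have := tL Y DIAG (63 * i)
    rw [e, hd] at this
    simpa using this.symm
  have hY : HY Y := by
    intro i j hi
    have hi' : (fld Y i).testBit (31 + j) = true := hi
    rw [tfld] at hi'
    obtain ⟨ha, hb⟩ := Bool.and_eq_true_iff.1 hi'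
    have hi28 : i < 31 := by
      by_contra hc
      rw [hY1 _ (by omega)] at ha
      exact absurd ha (by simp)
    refine ⟨hi28, ?_⟩
    rw [tfld, show i * 62 + i = 63 * i by ring, hY2 i hi28]
    simp; omega
  intro r hr
  have hg : Good Y r.2 := by
    refine pairs_sound (G := Good Y r.2) hY ?_ np ps 0 0 0 (fun _ => DI_zero Y) h
    intro T hT h
    refine outer_sound (G := Good Y r.2) hY hT ?_ l 0 0 (DI_zero Y) h
    intro D k hD hl
    exact root_good hY (hD.1 r.1) (rootsOK_sound hl r hr)
  refine BW.mono hg ?_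
  rintro s ⟨q, hq, rfl⟩
  obtain ⟨j, e, h3, h4, rfl⟩ := mem_sub es 31 q hq
  refine ⟨_, ⟨j, h4, rfl⟩, ?_⟩
  rintro i ⟨hi1, hi2⟩
  have hi' : (fld Y i).testBit (31 + j) = true := hi1
  rw [tfld] at hi'
  obtain ⟨ha, _⟩ := Bool.and_eq_true_iff.1 hi'
  refine mem_filt.2 ⟨lnk_get es 31 h0 j e h3 i (hY i j hi1).1 ?_, hi2⟩
  rw [show 31 + j + 62 * i = i * 62 + (31 + j) by ring]
  exact ha

end Pool.Agent.H184.T5.W
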