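import Pool.Agent.H184.T5.Chk

set_option autoImplicit false

namespace Pool.Agent.H184.T5

open Pool.Agent.Helper582.Cube Set

theorem tL (a b i : ℕ) : (Nat.land a b).testBit i = (a.testBit i && b.testBit i) := Nat.testBit_and a b i
theorem tO (a b i : ℕ) : (Nat.lor a b).testBit i = (a.testBit i || b.testBit i) := Nat.testBit_or a b i
theorem tR (a k i : ℕ) : (Nat.shiftRight a k).testBit i = a.testBit (k + i) := Nat.testBit_shiftRight a
theorem tS (a k i : ℕ) : (Nat.shiftLeft a k).testBit i = (decide (k ≤ i) && a.testBit (i - k)) :=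
  Nat.testBit_shiftLeft a
theorem tZ (i : ℕ) : ZM.testBit i = decide (i < 28) := by
  have h : ZM = 2 ^ 28 - 1 := by unfold ZM; norm_num
  rw [h, Nat.testBit_two_pow_sub_one]
theorem tF (i : ℕ) : FM.testBit i = decide (i < 56) := by
  have h : FM = 2 ^ 56 - 1 := by unfold FM; norm_num
  rw [h, Nat.testBit_two_pow_sub_one]
theorem tfld (D t i : ℕ) : (fld D t).testBit i = (D.testBit (t * 56 + i) && decide (i < 56)) := by
  unfold fld
  rw [tL, tR, tF]
  rfl
theorem t0 (i : ℕ) : (0 : ℕ).testBit i = false := Nat.zero_testBit i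

theorem AND_true {a b : Bool} (h : AND a b = true) : a = true ∧ b = true := by
  cases a
  · exact absurd h (by simp [AND])
  · exact ⟨rfl, h⟩

/-- the edge `j` -/
def Ed (Y j : ℕ) : Set ℕ := {i | (fld Y i).testBit (28 + j) = true}

/-- the family of a fact -/
def Fm (Y N : ℕ) : Set (Set ℕ) :=
  {s | ∃ j, N.testBit (28 + j) = true ∧ s = {i | i ∈ Ed Y j ∧ N.testBit i = true}}

def Good (Y N : ℕ) : Prop := BW (Fm Y N)

def HY (Y : ℕ) : Prop := ∀ i j, i ∈ Ed Y j → i < 28 ∧ (fld Y i).testBit i = true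

/-- empty zone part -/
def Z (bad : ℕ) : Prop := ∀ i, i < 28 → bad.testBit i = false

theorem Z_of_beq {bad : ℕ} (h : Nat.beq (Nat.land bad ZM) 0 = true) : Z bad := by
  intro i hi
  have h1 : Nat.land bad ZM = 0 := Nat.eq_of_beq_eq_true h
  have h2 := tL bad ZM i
  rw [h1, t0, tZ] at h2
  simpa [hi] using h2.symm

theorem good_zero (Y : ℕ) : Good Y 0 := by
  have : Fm Y 0 = ∅ := by
    ext s
    simp [Fm]
  unfold Good
  rw [this]
  exact BW.empty

theorem good_union {Y Q F : ℕ} (hY : HY Y) (hQ : Good Y Q) (hF : Good Y F) (hd : Z (Nat.land Q F)) :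
    Good Y (Nat.lor Q F) := by
  refine BW.mono (BW.union hQ hF ?_) ?_
  · rintro a ⟨s, ⟨j, _, rfl⟩, ha⟩ ⟨s', ⟨j', _, rfl⟩, ha'⟩
    have h1 := hd a (hY a j ha.1).1
    rw [tL, ha.2, ha'.2] at h1
    exact absurd h1 (by simp)
  · rintro s ⟨j, hj, rfl⟩
    rw [tO] at hj
    rcases Bool.or_eq_true_iff.1 hj with h | h
    · refine ⟨_, Or.inl ⟨j, h, rfl⟩, ?_⟩
      rintro i ⟨h1, h2⟩
      exact ⟨h1, by rw [tO, h2]; rfl⟩
    · refine ⟨_, Or.inr ⟨j, h, rfl⟩, ?_⟩
      rintro i ⟨h1, h2⟩
      exact ⟨h1, by rw [tO, h2]; simp⟩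

/-- a branch -/
def BrI (Y P : ℕ) : Prop := ∃ Q, Good Y Q ∧ (∀ i, i < 28 → Q.testBit i = true → P.testBit i = true) ∧
  ∃ y, ∀ j, P.testBit (28 + j) = true → Q.testBit (28 + j) = true ∨ (y ∈ Ed Y j ∧ P.testBit y = true)

theorem brI_or {Y Q t : ℕ} (hY : HY Y) (hQ : Good Y Q) : BrI Y (Nat.lor Q (fld Y t)) := by
  refine ⟨Q, hQ, fun i _ h => by rw [tO, h]; rfl, t, fun j h => ?_⟩
  rw [tO] at h
  rcases Bool.or_eq_true_iff.1 h with h | h
  · exact Or.inl h
  · exact Or.inr ⟨h, by rw [tO, (hY t j h).2]; simp⟩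

/-- the branches of a node so far: union of zones, intersection -/
def NI (Y O A : ℕ) : Prop := ∃ L : List ℕ, (∀ P ∈ L, BrI Y P) ∧
  (∀ i, i < 28 → (∀ P ∈ L, P.testBit i = true) → A.testBit i = true) ∧
  (∀ j, A.testBit (28 + j) = true → ∀ P ∈ L, P.testBit (28 + j) = true) ∧
  (∀ P ∈ L, ∀ i, i < 28 → P.testBit i = true → O.testBit i = true)

theorem NI_start (Y : ℕ) : NI Y 0 FM := by
  refine ⟨[], by simp, fun i hi _ => ?_, by simp, by simp⟩
  rw [tF]
  simp; omega

theorem NI_add {Y O A P : ℕ} (h : NI Y O A) (hP : BrI Y P) : NI Y (Nat.lor O P) (Nat.land A P) := by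
  obtain ⟨L, h1, h2, h3, h4⟩ := h
  refine ⟨P :: L, ?_, ?_, ?_, ?_⟩
  · intro R hR
    rcases List.mem_cons.1 hR with rfl | hR
    · exact hP
    · exact h1 R hR
  · intro i hi hall
    rw [tL, h2 i hi fun R hR => hall R (List.mem_cons_of_mem _ hR), hall P List.mem_cons_self]
    rfl
  · intro j hj R hR
    rw [tL] at hj
    obtain ⟨ha, hp⟩ := Bool.and_eq_true_iff.1 hj
    rcases List.mem_cons.1 hR with rfl | hR
    · exact hp
    · exact h3 j ha R hR
  · intro R hR i hi hb
    rw [tO]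
    rcases List.mem_cons.1 hR with rfl | hR
    · rw [hb]; simp
    · rw [h4 R hR i hi hb]; rfl

theorem good_node {Y O A : ℕ} (hY : HY Y) (h : NI Y O A) (hA : Z A) :
    Good Y (Nat.lor (Nat.land O ZM) A) := by
  obtain ⟨L, h1, h2, h3, h4⟩ := h
  set N := Nat.lor (Nat.land O ZM) A with hN
  have hz : ∀ P ∈ L, ∀ i, i < 28 → P.testBit i = true → N.testBit i = true := by
    intro P hP i hi hb
    rw [hN, tO, tL, h4 P hP i hi hb, tZ]
    simp [hi]
  have he : ∀ j, N.testBit (28 + j) = true → ∀ P ∈ L, P.testBit (28 + j) = true := by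
    intro j hj P hP
    refine h3 j ?_ P hP
    rw [hN, tO, tL, tZ] at hj
    simpa using hj
  have hx : ∀ i, i < 28 → ∃ P ∈ L, P.testBit i ≠ true := by
    intro i hi
    by_contra hc
    have := h2 i hi (fun P hP => by
      by_contra hp
      exact hc ⟨P, hP, hp⟩)
    rw [hA i hi] at this
    exact absurd this (by simp)
  apply BW.node
  · rintro ⟨j, hj, hs⟩
    obtain ⟨P, hP, _⟩ := hx 0 (by norm_num)
    obtain ⟨Q, hQ, hQP, y, hy⟩ := h1 P hP
    rcases hy j (he j hj P hP) with h | ⟨h, h'⟩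
    · have hne := (safe_BW _ hQ).1
      apply hne
      refine ⟨j, h, ?_⟩
      symm
      rw [eq_empty_iff_forall_notMem]
      rintro i ⟨ha, hb⟩
      have : i ∈ (∅ : Set ℕ) := by
        rw [hs]
        exact ⟨ha, hz P hP i (hY i j ha).1 (hQP i (hY i j ha).1 hb)⟩
      exact this
    · have : y ∈ (∅ : Set ℕ) := by
        rw [hs]
        exact ⟨h, hz P hP y (hY y j h).1 h'⟩
      exact this
  · rintro x ⟨s, ⟨j0, _, rfl⟩, hxs⟩
    obtain ⟨P, hP, hPx⟩ := hx x (hY x j0 hxs.1).1
    obtain ⟨Q, hQ, hQP, y, hy⟩ := h1 P hP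
    have main : ∀ y', (∀ j, P.testBit (28 + j) = true → (y ∈ Ed Y j ∧ P.testBit y = true) →
        y' ∈ Ed Y j ∧ P.testBit y' = true) → BW (reply (Fm Y N) x y') := by
      intro y' hyy
      refine BW.mono hQ ?_
      rintro k ⟨s, ⟨j, hj, rfl⟩, hys, rfl⟩
      rcases hy j (he j hj P hP) with h | h
      · refine ⟨_, ⟨j, h, rfl⟩, ?_⟩
        rintro i ⟨ha, hb⟩
        have hb' := hQP i (hY i j ha).1 hb
        refine ⟨⟨ha, hz P hP i (hY i j ha).1 hb'⟩, ?_⟩
        rintro rfl
        exact hPx hb'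
      · exfalso
        have h' := hyy j (he j hj P hP) h
        exact hys ⟨h'.1, hz P hP y' (hY y' j h'.1).1 h'.2⟩
    by_cases hyP : P.testBit y = true
    · refine ⟨y, ?_, main y fun j _ h => h⟩
      rintro rfl
      exact hPx hyP
    · obtain ⟨y', hy'⟩ := exists_ne x
      exact ⟨y', hy', main y' fun j _ h => absurd h.2 hyP⟩

/-- the table of facts -/
def DI (Y D k : ℕ) : Prop := (∀ j, Good Y (fld D j)) ∧ (∃ c, k = c * 56) ∧ D < 2 ^ k

theorem DI_zero (Y : ℕ) : DI Y 0 0 := by
  refine ⟨fun j => ?_, ⟨0, rfl⟩, by norm_num⟩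
  have : fld 0 j = 0 := by
    apply Nat.eq_of_testBit_eq
    intro i
    rw [tfld, t0, t0]
    rfl
  rw [this]
  exact good_zero Y

theorem DI_push {Y D k N : ℕ} (h : DI Y D k) (hN : Good Y N) (hlt : N < 2 ^ 56) :
    DI Y (Nat.lor D (Nat.shiftLeft N k)) (Nat.add k 56) := by
  obtain ⟨h1, ⟨c, rfl⟩, h3⟩ := h
  refine ⟨fun j => ?_, ⟨c + 1, by show c * 56 + 56 = _; ring⟩, ?_⟩
  · rcases lt_trichotomy j c with hj | hj | hj
    · have : fld (Nat.lor D (Nat.shiftLeft N (c * 56))) j = fld D j := by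
        apply Nat.eq_of_testBit_eq
        intro i
        rw [tfld, tfld, tO, tS]
        by_cases hi : i < 56
        · have : ¬ (c * 56 ≤ j * 56 + i) := by omega
          simp [this]
        · simp [hi]
      rw [this]
      exact h1 j
    · subst hj
      have : fld (Nat.lor D (Nat.shiftLeft N (j * 56))) j = N := by
        apply Nat.eq_of_testBit_eq
        intro i
        rw [tfld, tO, tS]
        have hD : D.testBit (j * 56 + i) = false :=
          Nat.testBit_lt_two_pow (lt_of_lt_of_le h3 (Nat.pow_le_pow_right (by norm_num) (by omega)))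
        rw [hD]
        by_cases hi : i < 56
        · simp [hi]
        · have : N.testBit i = false :=
            Nat.testBit_lt_two_pow (lt_of_lt_of_le hlt (Nat.pow_le_pow_right (by norm_num) (by omega)))
          simp [hi, this]
      rw [this]
      exact hN
    · have : fld (Nat.lor D (Nat.shiftLeft N (c * 56))) j = 0 := by
        apply Nat.eq_of_testBit_eq
        intro i
        rw [tfld, tO, tS, t0]
        have hD : D.testBit (j * 56 + i) = false :=
          Nat.testBit_lt_two_pow (lt_of_lt_of_le h3 (Nat.pow_le_pow_right (by norm_num) (by omega)))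
        have : N.testBit (j * 56 + i - c * 56) = false :=
          Nat.testBit_lt_two_pow (lt_of_lt_of_le hlt (Nat.pow_le_pow_right (by norm_num) (by omega)))
        simp [hD, this]
      rw [this]
      exact good_zero Y
  · apply Nat.lt_pow_two_of_testBit
    intro i hi
    have hi' : c * 56 + 56 ≤ i := hi
    rw [tO, tS]
    have hD : D.testBit i = false :=
      Nat.testBit_lt_two_pow (lt_of_lt_of_le h3 (Nat.pow_le_pow_right (by norm_num) (by omega)))
    have : N.testBit (i - c * 56) = false :=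
      Nat.testBit_lt_two_pow (lt_of_lt_of_le hlt (Nat.pow_le_pow_right (by norm_num) (by omega)))
    simp [hD, this]

theorem fld_lt (D t : ℕ) : fld D t < 2 ^ 56 := by
  apply Nat.lt_pow_two_of_testBit
  intro i hi
  rw [tfld]
  have : ¬ i < 56 := by omega
  simp [this]

theorem lor_lt {a b : ℕ} (ha : a < 2 ^ 56) (hb : b < 2 ^ 56) : Nat.lor a b < 2 ^ 56 :=
  Nat.or_lt_two_pow ha hb

theorem Z_or_left {a b : ℕ} (h : Z (Nat.lor a b)) : Z a := by
  intro i hi
  have := h i hi
  rw [tO] at this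
  exact (Bool.or_eq_false_iff.1 this).1
theorem Z_or_right {a b : ℕ} (h : Z (Nat.lor a b)) : Z b := by
  intro i hi
  have := h i hi
  rw [tO] at this
  exact (Bool.or_eq_false_iff.1 this).2

section
variable {Y : ℕ} {G : Prop}

/-- state of a union -/
def QI (Y : ℕ) (R : Prop) (Q bad : ℕ) : Prop := Q < 2 ^ 56 ∧ (Z bad → Good Y Q ∧ R)

theorem QI_add (hY : HY Y) {R : Prop} {Q bad F : ℕ} (h : QI Y R Q bad) (hF : Good Y F) (hF' : F < 2 ^ 56) :
    QI Y R (Nat.lor Q F) (Nat.lor bad (Nat.land Q F)) :=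
  ⟨lor_lt h.1 hF', fun hz => ⟨good_union hY (h.2 (Z_or_left hz)).1 hF (Z_or_right hz), (h.2 (Z_or_left hz)).2⟩⟩

theorem ploop_sound (hY : HY Y) {R : Prop} {T : ℕ} (hT : ∀ j, Good Y (fld T j)) {K : K3}
    (hK : ∀ s Q bad, QI Y R Q bad → K s Q bad = true → G) (n : ℕ) :
    ∀ s Q bad, QI Y R Q bad → ploop T K n s Q bad = true → G := by
  induction n with
  | zero => exact hK
  | succ n ih =>
    intro s Q bad h hr
    exact ih _ _ _ (QI_add hY h (hT _) (fld_lt _ _)) hr

theorem floop_sound (hY : HY Y) {R : Prop} {T : ℕ} (hT : ∀ j, Good Y (fld T j)) {K : K3}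
    (hK : ∀ s Q bad, QI Y R Q bad → K s Q bad = true → G) (n : ℕ) :
    ∀ s Q bad, QI Y R Q bad → floop T K n s Q bad = true → G := by
  induction n with
  | zero => exact hK
  | succ n ih =>
    intro s Q bad h hr
    exact ih _ _ _ (QI_add hY h (hT _) (fld_lt _ _)) hr

theorem bloop_sound (hY : HY Y) {T D : ℕ} (hT : ∀ j, Good Y (fld T j)) (hD : ∀ j, Good Y (fld D j)) {K : K4}
    (hK : ∀ s O A bad, A < 2 ^ 56 → (Z bad → NI Y O A) → K s O A bad = true → G) (n : ℕ) :
    ∀ s O A bad, A < 2 ^ 56 → (Z bad → NI Y O A) → bloop Y T D K n s O A bad = true → G := by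
  induction n with
  | zero => exact hK
  | succ n ih =>
    intro s O A bad hA h hr
    refine ploop_sound (R := NI Y O A) (G := G) hY hT ?_ _ _ _ _
      (show QI Y (NI Y O A) 0 bad from ⟨by norm_num, fun hz => ⟨good_zero Y, h hz⟩⟩) hr
    intro s1 Q1 bad1 h1 hr1
    refine floop_sound (R := NI Y O A) (G := G) hY hD ?_ _ _ _ _ h1 hr1
    intro s2 Q2 bad2 h2 hr2
    refine ih _ _ _ _ ?_ ?_ hr2
    · exact Nat.and_lt_two_pow _ (lor_lt h2.1 (fld_lt _ _))
    · intro hz
      exact NI_add (h2.2 hz).2 (brI_or hY (h2.2 hz).1)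

theorem push_sound {D k N bad s : ℕ} {ih : K3}
    (hK : ∀ s D k, DI Y D k → ih s D k = true → G) (hD : DI Y D k) (hN : Z bad → Good Y N)
    (hlt : N < 2 ^ 56) (h : push ih D k s N bad = true) : G := by
  obtain ⟨h1, h2⟩ := AND_true h
  exact hK _ _ _ (DI_push hD (hN (Z_of_beq h1)) hlt) h2

theorem nloop_sound (hY : HY Y) {T : ℕ} (hT : ∀ j, Good Y (fld T j)) {K : K3}
    (hK : ∀ s D k, DI Y D k → K s D k = true → G) (n : ℕ) :
    ∀ s D k, DI Y D k → nloop Y T K n s D k = true → G := by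
  induction n with
  | zero => exact hK
  | succ n ih =>
    intro s D k hD hr
    change @Bool.rec (fun _ => Bool) _ _ (Nat.beq (Nat.land s 31) 0) = true at hr
    cases hb : Nat.beq (Nat.land s 31) 0 with
    | false =>
      rw [hb] at hr
      refine bloop_sound (G := G) hY hT hD.1 ?_ _ _ _ _ _ (show FM < 2 ^ 56 by unfold FM; norm_num)
        (fun _ => NI_start Y) hr
      intro s1 O A bad hA h h1
      refine push_sound ih hD ?_ ?_ h1
      · intro hz
        exact good_node hY (h (Z_or_left hz)) (Z_or_right hz)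
      · refine lor_lt ?_ hA
        exact lt_of_le_of_lt Nat.and_le_right (by unfold ZM; norm_num)
    | true =>
      rw [hb] at hr
      refine ploop_sound (R := True) (G := G) hY hT ?_ _ _ _ _
        (show QI Y True 0 0 from ⟨by norm_num, fun _ => ⟨good_zero Y, trivial⟩⟩) hr
      intro s1 Q1 bad1 h1 hr1
      refine floop_sound (R := True) (G := G) hY hD.1 ?_ _ _ _ _ h1 hr1
      intro s2 Q2 bad2 h2 hr2
      exact push_sound ih hD (fun hz => (h2.2 hz).1) h2.1 hr2

theorem outer_sound (hY : HY Y) {T : ℕ} (hT : ∀ j, Good Y (fld T j)) {K : ℕ → ℕ → Bool}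
    (hK : ∀ D k, DI Y D k → K D k = true → G) (l : List ℕ) :
    ∀ D k, DI Y D k → outer Y T K l D k = true → G := by
  induction l with
  | nil => exact hK
  | cons L l ih =>
    intro D k hD hr
    exact nloop_sound (G := G) hY hT (fun _ D k h hr => ih D k h hr) _ _ _ _ hD hr

theorem pairs_sound (hY : HY Y) {K : ℕ → Bool}
    (hK : ∀ T, (∀ j, Good Y (fld T j)) → K T = true → G) (n : ℕ) :
    ∀ s T k bad, (Z bad → DI Y T k) → pairs Y n s T k bad K = true → G := by
  induction n with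
  | zero =>
    intro s T k bad h hr
    obtain ⟨h1, h2⟩ := AND_true hr
    exact hK T (h (Z_of_beq h1)).1 h2
  | succ n ih =>
    intro s T k bad h hr
    refine ih _ _ _ _ ?_ hr
    intro hz
    refine DI_push (h (Z_or_left hz)) ?_ ?_
    · have h1 : NI Y (Nat.lor (Nat.lor 0 (fld Y (Nat.land s 31))) (fld Y (Nat.land (Nat.shiftRight s 5) 31)))
          (Nat.land (Nat.land FM (fld Y (Nat.land s 31))) (fld Y (Nat.land (Nat.shiftRight s 5) 31))) := by
        have ha : ∀ t, BrI Y (fld Y t) := by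
          intro t
          have := brI_or (Q := 0) (t := t) hY (good_zero Y)
          rwa [show Nat.lor 0 (fld Y t) = fld Y t from Nat.zero_or _] at this
        exact NI_add (NI_add (NI_start Y) (ha _)) (ha _)
      have h2 : Nat.land FM (fld Y (Nat.land s 31)) = fld Y (Nat.land s 31) := by
        apply Nat.eq_of_testBit_eq
        intro i
        rw [tL, tF, tfld]
        by_cases hi : i < 56 <;> simp [hi]
      have h3 : Nat.lor 0 (fld Y (Nat.land s 31)) = fld Y (Nat.land s 31) := Nat.zero_or _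
      rw [h2, h3] at h1
      exact good_node hY h1 (Z_or_right hz)
    · refine lor_lt ?_ ?_
      · exact lt_of_le_of_lt Nat.and_le_right (by unfold ZM; norm_num)
      · exact Nat.and_lt_two_pow _ (fld_lt _ _)

end

/-- the family of the first `m` edges -/
def EF (Y m : ℕ) : Set (Set ℕ) := {s | ∃ j, j < m ∧ s = Ed Y j}

theorem tDIAG_aux (n : ℕ) : ∀ i, i < n →
    (@Nat.rec (fun _ => ℕ) 0 (fun i r => Nat.lor r (Nat.shiftLeft 1 (Nat.mul 57 i))) n : ℕ).testBit (57 * i) = true := by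
  induction n with
  | zero => intro i hi; omega
  | succ n ih =>
    intro i hi
    show (Nat.lor _ (Nat.shiftLeft 1 (Nat.mul 57 n))).testBit (57 * i) = true
    rw [tO]
    rcases Nat.lt_succ_iff_lt_or_eq.1 hi with h | rfl
    · rw [ih i h]; rfl
    · rw [tS]
      have : Nat.mul 57 i = 57 * i := rfl
      simp [this]

theorem of_chk {Y np ps m : ℕ} {l : List ℕ} (h : chk Y np ps l m = true) : BW (EF Y m) := by
  obtain ⟨h1, h⟩ := AND_true h
  obtain ⟨h2, h⟩ := AND_true h
  have hY1 : ∀ i, 1568 ≤ i → Y.testBit i = false := by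
    intro i hi
    have e : Nat.shiftRight Y 1568 = 0 := Nat.eq_of_beq_eq_true h1
    have := tR Y 1568 (i - 1568)
    rw [e, t0, show 1568 + (i - 1568) = i by omega] at this
    exact this.symm
  have hY2 : ∀ i, i < 28 → Y.testBit (57 * i) = true := by
    intro i hi
    have e : Nat.land Y DIAG = DIAG := Nat.eq_of_beq_eq_true h2
    have hd : DIAG.testBit (57 * i) = true := tDIAG_aux 28 i hi
    have := tL Y DIAG (57 * i)
    rw [e, hd] at this
    simpa using this.symm
  have hY : HY Y := by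
    intro i j hi
    have hi' : (fld Y i).testBit (28 + j) = true := hi
    rw [tfld] at hi'
    obtain ⟨ha, hb⟩ := Bool.and_eq_true_iff.1 hi'
    have hi28 : i < 28 := by
      by_contra hc
      rw [hY1 _ (by omega)] at ha
      exact absurd ha (by simp)
    refine ⟨hi28, ?_⟩
    rw [tfld, show i * 56 + i = 57 * i by ring, hY2 i hi28]
    simp; omega
  refine pairs_sound (G := BW (EF Y m)) hY ?_ np ps 0 0 0 (fun _ => DI_zero Y) h
  intro T hT h
  refine outer_sound (G := BW (EF Y m)) hY hT ?_ l 0 0 (DI_zero Y) h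
  intro D k hD hl
  have e : Nat.shiftRight (Nat.shiftRight D (Nat.sub k 56)) 28 = Nat.sub (Nat.shiftLeft 1 m) 1 :=
    Nat.eq_of_beq_eq_true hl
  have em : Nat.sub (Nat.shiftLeft 1 m) 1 = 2 ^ m - 1 := by
    show (1 <<< m) - 1 = _
    rw [Nat.one_shiftLeft]
  obtain ⟨hG, ⟨c, rfl⟩, hlt⟩ := hD
  refine BW.mono (hG (c - 1)) ?_
  rintro s ⟨j, hj, rfl⟩
  have hbit : D.testBit (c * 56 - 56 + (28 + j)) = true := by
    have := tR (Nat.shiftRight D (Nat.sub (c * 56) 56)) 28 j
    rw [e, em, Nat.testBit_two_pow_sub_one, tR] at this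
    have h' : decide (j < m) = true := by simpa using hj
    rw [h'] at this
    exact this.symm
  have hc : 1 ≤ c := by
    by_contra hc
    have : c = 0 := by omega
    subst this
    rw [Nat.testBit_lt_two_pow (lt_of_lt_of_le hlt (Nat.pow_le_pow_right (by norm_num) (by omega)))] at hbit
    exact absurd hbit (by simp)
  have hlt56 : 28 + j < 56 := by
    by_contra hcon
    rw [Nat.testBit_lt_two_pow (lt_of_lt_of_le hlt (Nat.pow_le_pow_right (by norm_num) (by omega)))] at hbit
    exact absurd hbit (by simp)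
  refine ⟨_, ⟨j, ?_, rfl⟩, fun i hi => hi.1⟩
  rw [tfld, show (c - 1) * 56 + (28 + j) = c * 56 - 56 + (28 + j) by omega, hbit]
  simp [hlt56]

end Pool.Agent.H184.T5
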